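import Pool.Agent.H37.CPX.Targets

/-!
# TRM: terminal states of the partition argument (helper45)
-/

set_option autoImplicit false

namespace Pool.Agent.H45.CPX

open Finset Pool.Agent.H37.CPX

theorem eq_empty_of {α : Type} {F A : Finset α} (h : F ⊆ A) (h' : Disjoint F A) : F = ∅ :=
  Finset.eq_empty_of_forall_notMem fun x hx => Finset.disjoint_left.1 h' hx (h hx)

theorem lt_sq {a b : ℝ} (ha : 0 < a) (hb : 0 ≤ b) (h : a * Real.sqrt b < b) : a ^ 2 < b := by
  have hs : 0 ≤ Real.sqrt b := Real.sqrt_nonneg b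
  have hs2 : Real.sqrt b * Real.sqrt b = b := Real.mul_self_sqrt hb
  have hs0 : 0 < Real.sqrt b := by
    rcases hs.eq_or_lt with h0 | h0
    · rw [← h0, mul_zero] at h
      rw [← h0, mul_zero] at hs2
      linarith
    · exact h0
  have h1 : a < Real.sqrt b := by
    rw [← hs2] at h
    have h2 : a * Real.sqrt (Real.sqrt b * Real.sqrt b) = a * Real.sqrt b := by rw [hs2]
    rw [h2] at h
    exact lt_of_mul_lt_mul_right h hs
  nlinarith

theorem le_mul {a b : ℝ} (ha : 0 < a) (hb : 0 ≤ b) (h : 4 * b ≤ a ^ 2) :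
    b ≤ a * Real.sqrt b := by
  have hs : 0 ≤ Real.sqrt b := Real.sqrt_nonneg b
  have hs2 : Real.sqrt b * Real.sqrt b = b := Real.mul_self_sqrt hb
  have h1 : Real.sqrt b ≤ a := by
    by_contra h2
    push Not at h2
    nlinarith
  calc b = Real.sqrt b * Real.sqrt b := hs2.symm
    _ ≤ a * Real.sqrt b := mul_le_mul_of_nonneg_right h1 hs

theorem pf_TRM (hX : S_NXY) (hW : S_WID) (hJ : S_JEN) : S_TRM := by
  intro N m k w0 P z lam s u w Ys st A hN hO hF hcase
  have ht : (st.T s).card ≤ N := by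
    have := Finset.card_le_univ (st.T s)
    rwa [Fintype.card_fin] at this
  have hW0 := hW N m k w0 P z (st.T s).card (st.T s).card 0 st.uX st.uY st.nl st.nh hN.hN hN.hz
    hN.hP hN.hPe le_rfl ht
  have hkx : 0 < st.kx s P z := hW0.2.2.2.2.2.1
  have hky : 0 < st.ky s P z := hW0.2.2.2.2.2.2.1
  have hmm : 0 < st.mm s P z := hW0.2.2.2.2.2.2.2.1
  have hsA : 0 ≤ Real.sqrt A.card := Real.sqrt_nonneg _
  by_cases hA : (A.card : ℝ) ≤ st.kx s P z * Real.sqrt A.card
  · refine ⟨A, Finset.Subset.refl _, hA, fun B _ => ⟨∅, Finset.empty_subset _, ?_, ?_⟩⟩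
    · rw [Finset.card_empty, Nat.cast_zero]
      exact mul_nonneg hky.le (Real.sqrt_nonneg _)
    · intro F hFA G _ hd _ _
      rw [eq_empty_of hFA hd, Finset.sum_empty, abs_zero]
      exact hmm.le
  · push Not at hA
    refine ⟨∅, Finset.empty_subset _, ?_, fun B hB => ⟨B, Finset.Subset.refl _, ?_, ?_⟩⟩
    · rw [Finset.card_empty, Nat.cast_zero]
      exact mul_nonneg hkx.le hsA
    · refine le_mul hky (Nat.cast_nonneg _) ?_
      by_contra hB4
      push Not at hB4
      have h1 : (st.T s).card ≤ (k + 4) * st.T0.card := by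
        have h2 : (st.T s).card ≤ st.T0.card + (s.Nb st.J \ st.T0).card := by
          unfold St.T
          rw [← Finset.union_sdiff_self_eq_union]
          exact Finset.card_union_le _ _
        calc (st.T s).card ≤ st.T0.card + (k + 3) * st.J.card := h2.trans
              (Nat.add_le_add_left hO.h2 _)
          _ ≤ st.T0.card + (k + 3) * st.T0.card :=
              Nat.add_le_add_left (Nat.mul_le_mul_left _ hO.h1) _
          _ = (k + 4) * st.T0.card := by ring
      have hcA := (hJ N (Fin (P ^ 16)) (Real.sqrt (Fintype.card (Fin (P ^ 16)))) (st.T s) (st.T s)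
        ∅ A (Real.sqrt_nonneg _) (Real.sq_sqrt (Nat.cast_nonneg _)) (Finset.Subset.refl _)
        hF).2.1
      have hcB := (hJ N (Fin (P ^ 16) → ZMod 2)
        (Real.sqrt (Fintype.card (Fin (P ^ 16) → ZMod 2))) (st.T s) (st.T s)
        ∅ B (Real.sqrt_nonneg _) (Real.sq_sqrt (Nat.cast_nonneg _)) (Finset.Subset.refl _)
        hB.2).2.1
      have e1 : ((Fintype.card (Fin (P ^ 16)) : ℕ) : ℝ) = (P : ℝ) ^ 16 := by
        rw [Fintype.card_fin, Nat.cast_pow]
      have e2 : ((Fintype.card (Fin (P ^ 16) → ZMod 2) : ℕ) : ℝ) = (2 : ℝ) ^ (P ^ 16) := by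
        rw [Fintype.card_fun, ZMod.card, Fintype.card_fin, Nat.cast_pow, Nat.cast_ofNat]
      rw [e1] at hcA
      rw [e2] at hcB
      have h3 := hX N m k w0 P z lam (st.T s).card st.T0.card st.uX st.uY st.nl st.nh A.card
        B.card hN ht h1 hO.h3 hO.h5 hcA hcB (lt_sq hkx (Nat.cast_nonneg _) hA) hB4
      have h4 := h3.1
      have h5 := h3.2.1
      omega
    · intro F _ G hGB _ hd _
      rw [eq_empty_of hGB hd]
      simp only [Finset.sum_empty, Finset.sum_const_zero, abs_zero]
      exact hmm.le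

end Pool.Agent.H45.CPX
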